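import Pool.Agent.H911R3.Spec

/-! The complete Kähler-Einstein metric of the polydisc (in particular of the unit disc) is not the
unique maximizer of the bottom of the spectrum among the complete Kähler metrics with
`Ric(ω) ≥ -ω`. -/

namespace Pool.Agent.Results.MP_164ed8_gt.NonUnique

open Pool.Agent.H911R3 Set

/-- Let `n ≥ 1` and let `X` be the unit polydisc of `ℂⁿ`, a connected noncompact complex manifold.
The metric `ω_0` (product of Poincaré metrics) is a complete Kähler-Einstein metric on `X` with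
`Ric(ω_0) = -ω_0` and `λ₀(X, ω_0) = n / 4 > 0`. For every `t ∈ [0, 1]`, the metric `ω_t` is a
complete Kähler metric on `X` with `Ric(ω_t) ≥ -ω_t`, and `λ₀(X, ω_t) = λ₀(X, ω_0)`; the metrics
`ω_t` are pairwise different. -/
theorem result (n : ℕ) (hn : 1 ≤ n) :
    IsOpen (polydisc n) ∧ IsConnected (polydisc n) ∧ ¬ IsCompact (polydisc n) ∧
    om n 0 ∈ Kcal (polydisc n) ∧ IsKE (polydisc n) (om n 0) ∧
    bottom (polydisc n) (om n 0) = n / 4 ∧ 0 < bottom (polydisc n) (om n 0) ∧
    (∀ t ∈ Icc (0 : ℝ) 1, om n t ∈ Kcal (polydisc n) ∧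
      bottom (polydisc n) (om n t) = bottom (polydisc n) (om n 0)) ∧
    ∀ s ∈ Icc (0 : ℝ) 1, ∀ t ∈ Icc (0 : ℝ) 1, s ≠ t → ∃ p ∈ polydisc n, om n s p ≠ om n t p := by
  have h0 := bottom_om (n := n) le_rfl zero_le_one
  refine ⟨isOpen_poly, isConnected_poly, not_compact_poly hn, mem_Kcal le_rfl, isKE_om, h0, ?_,
    fun t ht => ⟨mem_Kcal ht.1, by rw [bottom_om ht.1 ht.2, h0]⟩, fun s _ t _ hst =>
    ⟨0, ?_, om_ne hn hst⟩⟩
  · rw [h0]
    have : (0 : ℝ) < n := by exact_mod_cast hn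
    positivity
  · intro i
    simp

end Pool.Agent.Results.MP_164ed8_gt.NonUnique
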